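import Pool.Agent.TH268.TC.PH
import Pool.Agent.TH268.TC.Dens
import Pool.Agent.TH268.TC.One

/-!
# Monotonicity of the density and simple bounds
-/

set_option autoImplicit false

open Finset BigOperators

namespace Pool.Agent.N260.NMF

open Pool.Agent.H11R2.BEC Pool.Agent.H11R2.BEC.Ker Pool.Agent.TH268.TB Pool.Agent.TH268.TC
open Pool.Agent.H11R2.LatticeBose
open Pool.Agent.TH268
open Pool.Agent.TH268.ThermalGas (hamiltonian condensate density)

lemma cheb {ι : Type} [Fintype ι] (p : ι → ℝ) (hp : ∀ i, 0 < p i) (n : ι → ℕ) {s t : ℝ}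
    (ht : 0 < t) (hts : t ≤ s) :
    (∑ i, p i * t ^ n i * n i) * (∑ i, p i * s ^ n i) ≤
      (∑ i, p i * s ^ n i * n i) * (∑ i, p i * t ^ n i) := by
  have hs : 0 < s := ht.trans_le hts
  have key : ∀ i j : ι, 0 ≤ p i * p j * ((s ^ n i * t ^ n j - t ^ n i * s ^ n j) *
      ((n i : ℝ) - n j)) := by
    intro i j
    refine mul_nonneg (mul_nonneg (hp i).le (hp j).le) ?_
    have hmono : ∀ a b : ℕ, a ≤ b → s ^ a * t ^ b ≤ t ^ a * s ^ b := by
      intro a b hab
      obtain ⟨k, rfl⟩ := Nat.exists_eq_add_of_le hab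
      have h1 : t ^ k ≤ s ^ k := pow_le_pow_left₀ ht.le hts k
      have h2 : 0 ≤ s ^ a * t ^ a := by positivity
      calc s ^ a * t ^ (a + k) = s ^ a * t ^ a * t ^ k := by ring
        _ ≤ s ^ a * t ^ a * s ^ k := mul_le_mul_of_nonneg_left h1 h2
        _ = t ^ a * s ^ (a + k) := by ring
    rcases le_total (n i) (n j) with h | h
    · have h1 := hmono _ _ h
      have h2 : (n i : ℝ) ≤ n j := by exact_mod_cast h
      have h3 : 0 ≤ (t ^ n i * s ^ n j - s ^ n i * t ^ n j) * ((n j : ℝ) - n i) :=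
        mul_nonneg (by linarith) (by linarith)
      nlinarith [h3]
    · have h1 := hmono _ _ h
      have h2 : (n j : ℝ) ≤ n i := by exact_mod_cast h
      exact mul_nonneg (by linarith) (by linarith)
  have hsum : 0 ≤ ∑ i, ∑ j, p i * p j * ((s ^ n i * t ^ n j - t ^ n i * s ^ n j) *
      ((n i : ℝ) - n j)) := Finset.sum_nonneg fun i _ => Finset.sum_nonneg fun j _ => key i j
  have e1 : ∑ i, ∑ j, p i * p j * ((s ^ n i * t ^ n j - t ^ n i * s ^ n j) * ((n i : ℝ) - n j)) =
      2 * ((∑ i, p i * s ^ n i * n i) * (∑ i, p i * t ^ n i) -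
        (∑ i, p i * t ^ n i * n i) * (∑ i, p i * s ^ n i)) := by
    have a1 : ∀ i j : ι, p i * p j * ((s ^ n i * t ^ n j - t ^ n i * s ^ n j) * ((n i : ℝ) - n j)) =
        ((p i * s ^ n i * n i) * (p j * t ^ n j) - (p i * t ^ n i * n i) * (p j * s ^ n j)) +
        ((p i * t ^ n i) * (p j * s ^ n j * n j) - (p i * s ^ n i) * (p j * t ^ n j * n j)) := by
      intro i j; ring
    simp_rw [a1, Finset.sum_add_distrib, Finset.sum_sub_distrib, ← Finset.sum_mul_sum]
    ring
  rw [e1] at hsum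
  linarith

theorem density_mono {d J : ℕ} {K W : (Fin d → ℤ) → ℝ} (hK : ∀ z, K (-z) = K z) {β : ℝ}
    (hβ : 0 < β) {h h' : ℝ} (hh : h ≤ h') :
    density β (hamiltonian K W h J) ≤ density β (hamiltonian K W h' J) := by
  obtain ⟨p, hp, hf⟩ := density_formula (d := d) (J := J) (K := K) (W := W) hK β
  rw [hf h, hf h']
  have ht : 0 < Real.exp (β * h) := Real.exp_pos _
  have hts : Real.exp (β * h) ≤ Real.exp (β * h') :=
    Real.exp_le_exp.2 (mul_le_mul_of_nonneg_left hh hβ.le)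
  have hs : 0 < Real.exp (β * h') := Real.exp_pos _
  refine div_le_div_of_nonneg_right ?_ (by positivity)
  have z1 : 0 < ∑ η, p η * Real.exp (β * h) ^ npart η :=
    Finset.sum_pos (fun η _ => mul_pos (hp η) (pow_pos ht _)) Finset.univ_nonempty
  have z2 : 0 < ∑ η, p η * Real.exp (β * h') ^ npart η :=
    Finset.sum_pos (fun η _ => mul_pos (hp η) (pow_pos hs _)) Finset.univ_nonempty
  rw [div_le_div_iff₀ z1 z2]
  exact cheb p hp npart ht hts

theorem density_mem {d J : ℕ} {K W : (Fin d → ℤ) → ℝ} (hK : ∀ z, K (-z) = K z) (β h : ℝ) :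
    0 ≤ density β (hamiltonian K W h J) ∧ density β (hamiltonian K W h J) ≤ 1 := by
  obtain ⟨p, hp, hf⟩ := density_formula (d := d) (J := J) (K := K) (W := W) hK β
  rw [hf h]
  have ht : 0 < Real.exp (β * h) := Real.exp_pos _
  have z1 : 0 < ∑ η, p η * Real.exp (β * h) ^ npart η :=
    Finset.sum_pos (fun η _ => mul_pos (hp η) (pow_pos ht _)) Finset.univ_nonempty
  have hcard : (Fintype.card (Torus d J) : ℝ) = 2 ^ (d * J) := card_torus d J
  constructor
  · refine div_nonneg (div_nonneg (Finset.sum_nonneg fun η _ => ?_) z1.le) (by positivity)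
    have := (hp η).le
    positivity
  · rw [div_le_one (by positivity), div_le_iff₀ z1, ← hcard, Finset.mul_sum]
    refine Finset.sum_le_sum fun η _ => ?_
    have h1 : (npart η : ℝ) ≤ Fintype.card (Torus d J) := by exact_mod_cast npart_le η
    have h2 : 0 ≤ p η * Real.exp (β * h) ^ npart η := mul_nonneg (hp η).le (pow_pos ht _).le
    calc p η * Real.exp (β * h) ^ npart η * npart η ≤
        p η * Real.exp (β * h) ^ npart η * Fintype.card (Torus d J) :=
          mul_le_mul_of_nonneg_left h1 h2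
      _ = _ := mul_comm _ _

/-- the condensate is at most the density and nonnegative -/
theorem cond_le {d J : ℕ} (hd : 1 ≤ d) {σ : ℝ} (hσ : 0 < σ)
    {R W : (Fin d → ℤ) → ℝ} (hR : ∀ z, 0 ≤ R z) (hW : ∀ z, 0 ≤ W z) (hRe : ∀ z, R (-z) = R z)
    {r : ℝ} (hr : HasSum R r) (β h : ℝ) :
    0 ≤ condensate β (hamiltonian (fun z => hopping d σ z + R z) W h J) ∧
    condensate β (hamiltonian (fun z => hopping d σ z + R z) W h J) ≤
      density β (hamiltonian (fun z => hopping d σ z + R z) W h J) ∧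
    condensate β (hamiltonian (fun z => hopping d σ z + R z) W h J) ≤
      1 - density β (hamiltonian (fun z => hopping d σ z + R z) W h J) + 1 / 2 ^ (d * J) := by
  have hD : 0 < 1 - ker d ((2 : ℝ) ^ (-σ)) 0 := hopping_pos hd hσ
  have hK : (fun z => (1 : ℝ) * hopping d σ z + R z) = fun z => hopping d σ z + R z := by
    funext z; rw [one_mul]
  obtain ⟨ψ, E, hψ, -, hB⟩ := gibbs_linkP (J := J) hd hσ one_pos hR hW hRe hr h
    (1 - ker d ((2 : ℝ) ^ (-σ)) 0) hD.le (by rw [div_one])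
  rw [hK] at hB
  obtain ⟨e1, e2⟩ := hB β _ rfl
  rw [e1, e2]
  have hZ : 0 < ∑ m : Site d J → Bool, Real.exp (-(β / (1 - ker d ((2 : ℝ) ^ (-σ)) 0) * E m)) :=
    Finset.sum_pos (fun m _ => Real.exp_pos _) Finset.univ_nonempty
  refine ⟨?_, ?_, ?_⟩
  · exact div_nonneg (Finset.sum_nonneg fun m _ => mul_nonneg (Real.exp_pos _).le
      (coh_nonneg (ψ m))) hZ.le
  · refine div_le_div_of_nonneg_right ?_ hZ.le
    refine Finset.sum_le_sum fun m _ => mul_le_mul_of_nonneg_left ?_ (Real.exp_pos _).le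
    have := coh_anti (ψ m) 0 J (Nat.zero_le _) le_rfl
    rwa [coh_zero] at this
  · rw [← sub_nonneg]
    set w : (Site d J → Bool) → ℝ := fun m =>
      Real.exp (-(β / (1 - ker d ((2 : ℝ) ^ (-σ)) 0) * E m)) with hw
    have e3 : 1 - (∑ m, w m * rho (ψ m)) / (∑ m, w m) + 1 / 2 ^ (d * J) -
        (∑ m, w m * coh J (ψ m)) / (∑ m, w m) =
        (∑ m, w m * (1 - rho (ψ m) + 1 / 2 ^ (d * J) - coh J (ψ m))) / (∑ m, w m) := by
      have a1 : ∑ m, w m * (1 - rho (ψ m) + 1 / 2 ^ (d * J) - coh J (ψ m)) =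
          (∑ m, w m) - (∑ m, w m * rho (ψ m)) + (∑ m, w m) * (1 / 2 ^ (d * J)) -
            (∑ m, w m * coh J (ψ m)) := by
        rw [Finset.sum_mul, ← Finset.sum_sub_distrib, ← Finset.sum_add_distrib,
          ← Finset.sum_sub_distrib]
        exact Finset.sum_congr rfl fun m _ => by ring
      rw [a1]
      have hZ' : (∑ m, w m) ≠ 0 := hZ.ne'
      field_simp
    rw [e3]
    refine div_nonneg (Finset.sum_nonneg fun m _ => mul_nonneg (Real.exp_pos _).le ?_) hZ.le
    have n1 : nsq (ψ m) = 1 := hψ.norm m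
    have b1 := coh_le_rel (le_refl J) n1
    obtain ⟨r0, r1⟩ := rho_mem n1
    have b2 : rho (ψ m) * (1 - rho (ψ m)) ≤ 1 * (1 - rho (ψ m)) :=
      mul_le_mul_of_nonneg_right r1 (by linarith)
    have b3 : rho (ψ m) * (1 / 2 ^ (d * J)) ≤ 1 * (1 / 2 ^ (d * J)) :=
      mul_le_mul_of_nonneg_right r1 (by positivity)
    linarith

end Pool.Agent.N260.NMF
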