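import Pool.Agent.TH268.TB.MFRho

/-!
# The root of `m = tanh (β m / 2)` as a continuous function of `β`
-/

set_option autoImplicit false

open Filter Topology

namespace Pool.Agent.N260.NMF

open Pool.Agent.TH268.TB

/-- the set of `x ∈ [0, 1]` with `x ≤ tanh (β x / 2)` -/
def S (β : ℝ) : Set ℝ := {x | 0 ≤ x ∧ x ≤ 1 ∧ x ≤ Real.tanh (β * x / 2)}

/-- the largest solution of `m = tanh (β m / 2)` -/
noncomputable def M (β : ℝ) : ℝ := sSup (S β)

lemma S_zero (β : ℝ) : (0 : ℝ) ∈ S β := by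
  refine ⟨le_rfl, zero_le_one, ?_⟩
  simp

lemma S_bdd (β : ℝ) : BddAbove (S β) := ⟨1, fun _ hx => hx.2.1⟩

lemma S_closed (β : ℝ) : IsClosed (S β) := by
  have h1 : IsClosed {x : ℝ | 0 ≤ x} := isClosed_le continuous_const continuous_id
  have h2 : IsClosed {x : ℝ | x ≤ 1} := isClosed_le continuous_id continuous_const
  have h3 : IsClosed {x : ℝ | x ≤ Real.tanh (β * x / 2)} :=
    isClosed_le continuous_id (tanh_cont.comp (by fun_prop))
  exact h1.inter (h2.inter h3)

lemma M_mem (β : ℝ) : M β ∈ S β :=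
  (S_closed β).csSup_mem ⟨0, S_zero β⟩ (S_bdd β)

lemma le_M {β x : ℝ} (hx : x ∈ S β) : x ≤ M β := le_csSup (S_bdd β) hx

lemma M_nonneg (β : ℝ) : 0 ≤ M β := (M_mem β).1

lemma tanh_lt_one' (x : ℝ) : Real.tanh x < 1 := by
  rw [Real.tanh_eq_sinh_div_cosh, div_lt_one (Real.cosh_pos x)]
  exact Real.sinh_lt_cosh x

lemma M_lt_one (β : ℝ) : M β < 1 := (M_mem β).2.2.trans_lt (tanh_lt_one' _)

/-- for `x > M β` the inequality is strict in the other direction -/
lemma lt_of_M_lt {β x : ℝ} (hx : M β < x) : Real.tanh (β * x / 2) < x := by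
  by_contra hcon
  push Not at hcon
  have h0 : 0 ≤ x := (M_nonneg β).trans hx.le
  have h1 : x ≤ 1 := hcon.trans (tanh_lt_one' _).le
  exact absurd (le_M ⟨h0, h1, hcon⟩) (not_le.2 hx)

lemma M_eq (β : ℝ) : M β = Real.tanh (β * M β / 2) := by
  refine le_antisymm (M_mem β).2.2 ?_
  have hc : ContinuousWithinAt (fun x => x - Real.tanh (β * x / 2)) (Set.Ioi (M β)) (M β) :=
    (continuous_id.sub (tanh_cont.comp (by fun_prop))).continuousWithinAt
  have h2 : ∀ᶠ x in 𝓝[>] (M β), 0 ≤ x - Real.tanh (β * x / 2) := by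
    filter_upwards [self_mem_nhdsWithin] with x hx
    linarith [lt_of_M_lt (Set.mem_Ioi.1 hx)]
  have h3 := ge_of_tendsto hc h2
  linarith

lemma ratio_anti' {β x y : ℝ} (hβ : 0 < β) (hx : 0 < x) (hxy : x < y) :
    Real.tanh (β * y / 2) / y < Real.tanh (β * x / 2) / x := by
  have h1 := ratio_anti (β / 2) (by positivity) (Set.mem_Ioi.2 hx) (Set.mem_Ioi.2 (hx.trans hxy)) hxy
  simp only at h1
  have e1 : β / 2 * y = β * y / 2 := by ring
  have e2 : β / 2 * x = β * x / 2 := by ring
  rwa [e1, e2] at h1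

/-- for `0 < x < M β` the inequality is strict -/
lemma lt_of_lt_M {β x : ℝ} (hβ : 0 < β) (hx0 : 0 < x) (hx : x < M β) :
    x < Real.tanh (β * x / 2) := by
  have h1 := ratio_anti' hβ hx0 hx
  rw [← M_eq, div_self (hx0.trans hx).ne', lt_div_iff₀ hx0, one_mul] at h1
  exact h1

lemma M_zero {β : ℝ} (hβ : 0 < β) (hβ2 : β ≤ 2) : M β = 0 := by
  by_contra hne
  have h0 : 0 < M β := lt_of_le_of_ne (M_nonneg β) (Ne.symm hne)
  have h1 := tanh_lt_self' (β * M β / 2) (by positivity)
  rw [← M_eq] at h1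
  nlinarith

lemma M_pos {β : ℝ} (hβ : 2 < β) : 0 < M β := by
  have hd : HasDerivAt (fun x : ℝ => Real.tanh (β * x / 2)) (1 / Real.cosh (β * 0 / 2) ^ 2 * (β / 2)) 0 := by
    have h1 := tanh_hasDeriv (β * 0 / 2)
    have h2 : HasDerivAt (fun x : ℝ => β * x / 2) (β / 2) 0 := by
      have := ((hasDerivAt_id (0 : ℝ)).const_mul β).div_const 2
      simpa using this
    exact h1.comp (0 : ℝ) h2
  have h1 : Tendsto (fun x : ℝ => x⁻¹ * (Real.tanh (β * x / 2))) (𝓝[>] 0) (𝓝 (β / 2)) := by
    have h2 := hd.hasDerivWithinAt (s := Set.Ioi 0)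
    rw [hasDerivWithinAt_iff_tendsto_slope] at h2
    have e1 : 1 / Real.cosh (β * 0 / 2) ^ 2 * (β / 2) = β / 2 := by simp
    rw [e1] at h2
    have e2 : Set.Ioi (0 : ℝ) \ {0} = Set.Ioi 0 := by
      ext x
      simp only [Set.mem_sdiff, Set.mem_Ioi, Set.mem_singleton_iff]
      exact ⟨fun h => h.1, fun h => ⟨h, h.ne'⟩⟩
    rw [e2] at h2
    refine h2.congr fun x => ?_
    simp [slope_def_field, div_eq_inv_mul]
  have h2 : ∀ᶠ x in 𝓝[>] (0 : ℝ), 1 < x⁻¹ * Real.tanh (β * x / 2) :=
    h1.eventually (lt_mem_nhds (by linarith))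
  obtain ⟨x, hx, hx0⟩ := (h2.and self_mem_nhdsWithin).exists
  have hx0' : 0 < x := hx0
  have h3 : x < Real.tanh (β * x / 2) := by
    rw [← div_eq_inv_mul, lt_div_iff₀ hx0', one_mul] at hx
    exact hx
  exact hx0'.trans_le (le_M ⟨hx0'.le, (h3.trans (tanh_lt_one' _)).le, h3.le⟩)

lemma M_pos_or {β : ℝ} : 0 < M β ∨ β ≤ 2 := by
  rcases le_or_gt β 2 with h | h
  · exact Or.inr h
  · exact Or.inl (M_pos h)

lemma M_unique {β m : ℝ} (hβ : 0 < β) (hm : 0 ≤ m) (hm1 : m = Real.tanh (β * m / 2))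
    (hm2 : 0 < m ∨ β ≤ 2) : m = M β := by
  rcases le_or_gt β 2 with h | h
  · rw [M_zero hβ h]
    by_contra hne
    have h0 : 0 < m := lt_of_le_of_ne hm (Ne.symm hne)
    have h1 := tanh_lt_self' (β * m / 2) (by positivity)
    rw [← hm1] at h1
    nlinarith
  · have h0 : 0 < m := by
      rcases hm2 with h1 | h1
      · exact h1
      · exact absurd h1 (not_le.2 h)
    have hM := M_pos h
    rcases lt_trichotomy m (M β) with h1 | h1 | h1
    · have h2 := ratio_anti' hβ h0 h1
      rw [← M_eq, ← hm1, div_self hM.ne', div_self h0.ne'] at h2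
      exact absurd h2 (lt_irrefl _)
    · exact h1
    · have h2 := ratio_anti' hβ hM h1
      rw [← M_eq, ← hm1, div_self hM.ne', div_self h0.ne'] at h2
      exact absurd h2 (lt_irrefl _)

lemma M_cont {β : ℝ} (hβ : 0 < β) : ContinuousAt M β := by
  rw [ContinuousAt, tendsto_order]
  constructor
  · intro x hx
    rcases le_or_gt 0 x with h0 | h0
    · -- choose y between x and M β
      set y : ℝ := (x + M β) / 2 with hy
      have hy0 : 0 < y := by linarith
      have hyM : y < M β := by linarith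
      have hxy : x < y := by linarith
      have h1 := lt_of_lt_M hβ hy0 hyM
      have h2 : ∀ᶠ b in 𝓝 β, y < Real.tanh (b * y / 2) := by
        have hc : ContinuousAt (fun b : ℝ => Real.tanh (b * y / 2)) β :=
          (tanh_cont.comp (by fun_prop)).continuousAt
        exact hc.eventually (lt_mem_nhds h1)
      filter_upwards [h2] with b hb
      exact hxy.trans_le (le_M ⟨hy0.le, (hb.trans (tanh_lt_one' _)).le, hb.le⟩)
    · exact Eventually.of_forall fun b => h0.trans_le (M_nonneg b)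
  · intro x hx
    have hx0 : 0 < x := (M_nonneg β).trans_lt hx
    have h1 := lt_of_M_lt hx
    have h2 : ∀ᶠ b in 𝓝 β, Real.tanh (b * x / 2) < x := by
      have hc : ContinuousAt (fun b : ℝ => Real.tanh (b * x / 2)) β :=
        (tanh_cont.comp (by fun_prop)).continuousAt
      exact hc.eventually (gt_mem_nhds h1)
    filter_upwards [h2, lt_mem_nhds hβ] with b hb hb0
    by_contra hcon
    push Not at hcon
    rcases eq_or_lt_of_le hcon with h3 | h3
    · have := M_eq b
      rw [← h3] at this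
      linarith
    · have := lt_of_lt_M hb0 hx0 h3
      linarith

/-- continuity of the mean-field condensate -/
lemma cond_cont {β h : ℝ} (hβ : 0 < β) :
    ContinuousAt (fun p : ℝ × ℝ => max 0 ((M p.1 ^ 2 - p.2 ^ 2) / 4)) (β, h) := by
  have h1 : ContinuousAt (fun p : ℝ × ℝ => M p.1) (β, h) :=
    ContinuousAt.comp (f := fun p : ℝ × ℝ => p.1) (x := (β, h)) (M_cont hβ) continuousAt_fst
  have h2 : ContinuousAt (fun p : ℝ × ℝ => p.2) (β, h) := continuousAt_snd
  exact continuousAt_const.max (((h1.pow 2).sub (h2.pow 2)).div_const 4)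

/-- continuity of the mean-field density -/
lemma rho_cont {β h : ℝ} (hβ : 0 < β) :
    ContinuousAt (fun p : ℝ × ℝ => mfRho p.1 p.2 (M p.1)) (β, h) := by
  have h1 : ContinuousAt (fun p : ℝ × ℝ => M p.1) (β, h) :=
    ContinuousAt.comp (f := fun p : ℝ × ℝ => p.1) (x := (β, h)) (M_cont hβ) continuousAt_fst
  have h2 : ContinuousAt (fun p : ℝ × ℝ => |p.2|) (β, h) := by
    exact continuous_abs.continuousAt.comp continuousAt_snd
  have b1 : ContinuousAt (fun p : ℝ × ℝ => (1 + p.2) / 2) (β, h) := by fun_prop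
  have b2 : ContinuousAt (fun p : ℝ × ℝ => (1 + Real.tanh (p.1 * p.2 / 2)) / 2) (β, h) := by
    have h3 : ContinuousAt (fun p : ℝ × ℝ => Real.tanh (p.1 * p.2 / 2)) (β, h) :=
      (tanh_cont.comp (by fun_prop)).continuousAt
    exact (continuousAt_const.add h3).div_const 2
  rcases lt_trichotomy |h| (M β) with h3 | h3 | h3
  · have h4 : ∀ᶠ p : ℝ × ℝ in 𝓝 (β, h), |p.2| < M p.1 := h2.eventually_lt h1 h3
    refine (b1.congr ?_)
    filter_upwards [h4] with p hp
    unfold mfRho
    rw [if_pos hp]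
  · have e1 : mfRho β h (M β) = (1 + Real.tanh (β * h / 2)) / 2 := by
      unfold mfRho; rw [if_neg (not_lt.2 h3.ge)]
    have e2 : Real.tanh (β * h / 2) = h := by
      rcases le_total 0 h with h5 | h5
      · rw [abs_of_nonneg h5] at h3
        rw [h3]; exact (M_eq β).symm
      · rw [abs_of_nonpos h5] at h3
        have h6 : h = -M β := by linarith
        have h7 : β * h / 2 = -(β * M β / 2) := by rw [h6]; ring
        rw [h7, Real.tanh_neg, ← M_eq, h6]
    show Tendsto (fun p : ℝ × ℝ => mfRho p.1 p.2 (M p.1)) (𝓝 (β, h)) (𝓝 (mfRho β h (M β)))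
    rw [e1]
    unfold mfRho
    refine Tendsto.if ?_ ?_
    · have := b1.tendsto
      simp only at this
      rw [e2]
      exact this.mono_left inf_le_left
    · have := b2.tendsto
      simp only at this
      exact this.mono_left inf_le_left
  · have h4 : ∀ᶠ p : ℝ × ℝ in 𝓝 (β, h), M p.1 < |p.2| := h1.eventually_lt h2 h3
    refine (b2.congr ?_)
    filter_upwards [h4] with p hp
    unfold mfRho
    rw [if_neg (not_lt.2 hp.le)]

lemma tanh_mono : StrictMono Real.tanh := by
  apply strictMono_of_deriv_pos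
  intro x
  rw [(tanh_hasDeriv x).deriv]
  have := Real.cosh_pos x
  positivity

lemma tanh_tendsto : Tendsto Real.tanh atTop (𝓝 1) := by
  have e : ∀ x : ℝ, Real.tanh x = (1 - Real.exp (-2 * x)) / (1 + Real.exp (-2 * x)) := by
    intro x
    rw [Real.tanh_eq_sinh_div_cosh, Real.sinh_eq, Real.cosh_eq]
    have h1 : Real.exp (-2 * x) = Real.exp (-x) / Real.exp x := by
      rw [← Real.exp_sub]; congr 1; ring
    rw [h1]
    have h2 := Real.exp_pos x
    have h3 := Real.exp_pos (-x)
    field_simp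
  have h1 : Tendsto (fun x : ℝ => Real.exp (-2 * x)) atTop (𝓝 0) := by
    refine Real.tendsto_exp_atBot.comp ?_
    exact tendsto_id.const_mul_atTop_of_neg (by norm_num)
  have h2 : Tendsto (fun x : ℝ => (1 - Real.exp (-2 * x)) / (1 + Real.exp (-2 * x))) atTop
      (𝓝 ((1 - 0) / (1 + 0))) :=
    (tendsto_const_nhds.sub h1).div (tendsto_const_nhds.add h1) (by norm_num)
  rw [sub_zero, add_zero, div_one] at h2
  exact h2.congr fun x => (e x).symm

/-- the condensate in terms of the density -/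
lemma cond_rho (β h : ℝ) (hβ : 0 < β) :
    max 0 ((M β ^ 2 - (1 - 2 * mfRho β h (M β)) ^ 2) / 4) = max 0 ((M β ^ 2 - h ^ 2) / 4) := by
  unfold mfRho
  split_ifs with hlt
  · congr 2; ring
  · push Not at hlt
    have h0 := M_nonneg β
    have k1 : M β ^ 2 ≤ h ^ 2 := by
      rw [← sq_abs h]; exact pow_le_pow_left₀ h0 hlt 2
    have k2 : M β ≤ |Real.tanh (β * h / 2)| := by
      have key : ∀ x : ℝ, M β ≤ x → M β ≤ Real.tanh (β * x / 2) := by
        intro x hx
        rw [M_eq β]
        have hm : StrictMono Real.tanh := tanh_mono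
        exact hm.monotone (by nlinarith)
      rcases le_total 0 h with h5 | h5
      · rw [abs_of_nonneg h5] at hlt
        exact (key h hlt).trans (le_abs_self _)
      · rw [abs_of_nonpos h5] at hlt
        have h6 := key (-h) hlt
        have h7 : β * (-h) / 2 = -(β * h / 2) := by ring
        rw [h7, Real.tanh_neg] at h6
        exact h6.trans (neg_le_abs _)
    have k3 : M β ^ 2 ≤ (1 - 2 * ((1 + Real.tanh (β * h / 2)) / 2)) ^ 2 := by
      have e : (1 - 2 * ((1 + Real.tanh (β * h / 2)) / 2)) ^ 2 = |Real.tanh (β * h / 2)| ^ 2 := by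
        rw [sq_abs]; ring
      rw [e]
      exact pow_le_pow_left₀ h0 k2 2
    rw [max_eq_left (by linarith), max_eq_left (by linarith)]

end Pool.Agent.N260.NMF
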