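import Pool.Agent.TH268.TC.One
import Pool.Agent.N260.NMF.Root

/-!
# The near-mean-field theorem in a neighbourhood of every temperature and chemical potential
-/

set_option autoImplicit false

open Finset BigOperators

namespace Pool.Agent.N260.NMF

open Pool.Agent.H11R2.BEC Pool.Agent.H11R2.BEC.Ker Pool.Agent.TH268.TB Pool.Agent.TH268.TC
open Pool.Agent.H11R2.LatticeBose
open Pool.Agent.TH268
open Pool.Agent.TH268.ThermalGas (hamiltonian condensate)

/-- near mean field, locally uniformly in the temperature and the chemical potential -/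
theorem nearMF2 (d : ℕ) (hd : 1 ≤ d) (β₀ h₀ ε m : ℝ) (hβ₀ : 0 < β₀) (hε : 0 < ε) (hm : 0 ≤ m)
    (hm1 : m = Real.tanh (β₀ * m / 2)) (hm2 : 0 < m ∨ β₀ ≤ 2) :
    ∃ δ : ℝ, 0 < δ ∧ ∃ J₀ : ℕ, ∀ β h : ℝ, |β - β₀| ≤ δ → |h - h₀| ≤ δ →
      ∀ σ : ℝ, 0 < σ → σ ≤ δ → ∀ R W : (Fin d → ℤ) → ℝ,
      (∀ z, 0 ≤ R z) → (∀ z, 0 ≤ W z) → R 0 = 0 → W 0 = 0 → (∀ z, R (-z) = R z) →
      ∀ L : ℝ, L ≤ δ → HasSum (fun z => (R z + W z / 2) * (1 + oneNorm z)) L →
      ∀ J ≥ J₀,
        |condensate β (hamiltonian (fun z => hopping d σ z + R z) W h J) -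
          max 0 ((m ^ 2 - h₀ ^ 2) / 4)| ≤ ε ∧
        |ThermalGas.density β (hamiltonian (fun z => hopping d σ z + R z) W h J) -
          mfRho β₀ h₀ m| ≤ ε := by
  obtain ⟨δ₁, hδ₁, J₀, hmain⟩ := bec_absP d hd β₀ h₀ ε m hβ₀ hε hm hm1 hm2
  obtain ⟨δ, hδdef⟩ : ∃ δ, δ = δ₁ / 2 := ⟨_, rfl⟩
  have hδ : 0 < δ := by rw [hδdef]; positivity
  -- choice of `σ₀`
  set σ₀ : ℝ := min (min (δ / 4) (1 / 4)) (min (δ / (4 * (β₀ + 1))) (δ / (8 * (|h₀| + 2)))) with hσ₀
  have hσ₀p : 0 < σ₀ := by rw [hσ₀]; positivity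
  set τ : ℝ := min σ₀ (min 1 (β₀ / 2)) with hτ
  have hτp : 0 < τ := by rw [hτ]; positivity
  obtain ⟨n, hn⟩ := exists_pow_lt_of_lt_one (show 0 < δ / 4 by positivity)
    (show (1 / 2 : ℝ) < 1 by norm_num)
  refine ⟨τ, hτp, max J₀ n, ?_⟩
  intro β h hββ hhh σ hσ hσle' R W hR hW hR0 hW0 hRe L hLδ' hL J hJ
  have hτσ : τ ≤ σ₀ := min_le_left _ _
  have hτ1 : τ ≤ 1 := (min_le_right _ _).trans (min_le_left _ _)
  have hτβ : τ ≤ β₀ / 2 := (min_le_right _ _).trans (min_le_right _ _)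
  have hσle : σ ≤ σ₀ := hσle'.trans hτσ
  have hLδ : L ≤ σ₀ := hLδ'.trans hτσ
  have hββ' := abs_le.1 hββ
  have hβ : 0 < β := by linarith [hββ'.1]
  have hβ2 : β ≤ β₀ + 1 := by linarith [hββ'.2]
  have hh2 : |h| ≤ |h₀| + 1 := by
    have := abs_sub_abs_le_abs_sub h h₀
    linarith
  have hJ1 : J₀ ≤ J := (le_max_left _ _).trans hJ
  have hJ2 : n ≤ J := (le_max_right _ _).trans hJ
  have g1 : σ ≤ δ / 4 := hσle.trans ((min_le_left _ _).trans (min_le_left _ _))
  have g2 : σ ≤ 1 / 4 := hσle.trans ((min_le_left _ _).trans (min_le_right _ _))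
  have g3 : σ ≤ δ / (4 * (β₀ + 1)) := hσle.trans ((min_le_right _ _).trans (min_le_left _ _))
  have g4 : σ ≤ δ / (8 * (|h₀| + 2)) := hσle.trans ((min_le_right _ _).trans (min_le_right _ _))
  have g5 : L ≤ δ / 4 := hLδ.trans ((min_le_left _ _).trans (min_le_left _ _))
  have hL' : HasSum (fun z => (R z + W z / 2) * (1 + on z)) L := hL
  have hL0 : 0 ≤ L := HasSum.nonneg (fun z => by
    have h1 := hR z
    have h2 := hW z
    positivity) hL'
  -- summability
  have hRs : Summable R := by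
    refine Summable.of_nonneg_of_le hR (fun z => ?_) hL'.summable
    have h1 := hR z
    have h2 := hW z
    have h3 : (0 : ℝ) ≤ on z := by positivity
    have h4 : R z ≤ R z + W z / 2 := by linarith
    exact h4.trans (le_mul_of_one_le_right (by positivity) (by linarith))
  have hWs : Summable W := by
    have h0 : Summable fun z => W z / 2 := by
      refine Summable.of_nonneg_of_le (fun z => by have := hW z; positivity) (fun z => ?_)
        hL'.summable
      have h1 := hR z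
      have h2 := hW z
      have h3 : (0 : ℝ) ≤ on z := by positivity
      have h4 : W z / 2 ≤ R z + W z / 2 := by linarith
      exact h4.trans (le_mul_of_one_le_right (by positivity) (by linarith))
    have h1 := h0.mul_left 2
    refine h1.congr fun z => ?_
    ring
  obtain ⟨r, hr⟩ := hRs
  set q : ℝ := (2 : ℝ) ^ (-σ) with hq
  have hq0 : 0 ≤ q := by positivity
  have hq1 : q < 1 := two_rpow_lt_one hσ
  have hqσ : 1 - σ ≤ q := one_sub_le hσ
  set k0 : ℝ := ker d q 0 with hk0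
  have hk0n : 0 ≤ k0 := ker_nonneg hq0 hq1 0
  have hk0l : k0 ≤ 2 * σ := by
    have := ker_zero_le hd hq0 hq1
    rw [← hk0] at this
    linarith
  have hD : 0 < 1 - k0 := hopping_pos hd hσ
  have hD2 : 1 / 2 ≤ 1 - k0 := by linarith
  have htz1 : tz d J q ≤ k0 + 1 / 2 ^ (d * J) := t0_le hq0 hq1
  have htz0 : k0 ≤ tz d J q := le_t0 hq0 hq1
  have hpow : 1 / (2 : ℝ) ^ (d * J) ≤ δ / 4 := by
    have h1 : 1 / (2 : ℝ) ^ (d * J) ≤ (1 / 2 : ℝ) ^ n := by
      rw [one_div, ← inv_pow, ← one_div]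
      apply pow_le_pow_of_le_one (by norm_num) (by norm_num)
      have : J ≤ d * J := Nat.le_mul_of_pos_left _ (by omega)
      omega
    exact h1.trans hn.le
  set s : ℝ := 1 - k0 with hs
  have hs1 : s ≤ 1 := by linarith
  have hK : (fun z => (1 : ℝ) * hopping d σ z + R z) = fun z => hopping d σ z + R z := by
    funext z; rw [one_mul]
  obtain ⟨ψ, E, hψ, hE, hB⟩ := gibbs_linkP (J := J) hd hσ one_pos hR hW hRe hr h s hD.le
    (by rw [div_one])
  rw [hK] at hB
  obtain ⟨e1, e2⟩ := hB β (β / s) rfl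
  set β' : ℝ := β / s with hβ'
  set P : Pert d := mkP R W J s hD.le hR hW with hP
  set μ : ℝ := s * h - tz d J q + s * (r - per R J 0) with hμ
  set Z : ℝ := ∑ m, Real.exp (-(β' * E m)) with hZ
  have hG : IsGibbsP P q μ β' ψ E (fun m => Real.exp (-(β' * E m)) / Z) :=
    ⟨hψ, hE, fun m => rfl⟩
  have hPL : P.L ≤ L := by
    have h1 := mkP_L_le (J := J) hD.le hR hW hR0 hW0 hL' hr.summable hWs
    refine h1.trans ?_
    calc s * L ≤ 1 * L := mul_le_mul_of_nonneg_right hs1 hL0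
      _ = L := one_mul L
  have hβ1 : |β' - β| ≤ δ := by
    have hs' : s ≠ 0 := hD.ne'
    have h1 : β' - β = β * k0 / s := by
      rw [hβ', eq_div_iff hs', sub_mul, div_mul_cancel₀ _ hs', hs]; ring
    rw [h1, abs_of_nonneg (by positivity), div_le_iff₀ hD]
    have h2 : β * k0 ≤ δ / 2 := by
      calc β * k0 ≤ (β₀ + 1) * k0 := mul_le_mul_of_nonneg_right hβ2 hk0n
        _ ≤ (β₀ + 1) * (2 * (δ / (4 * (β₀ + 1)))) :=
            mul_le_mul_of_nonneg_left (hk0l.trans (by linarith)) (by linarith)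
        _ = δ / 2 := by field_simp; ring
    have h3 : δ * (1 / 2) ≤ δ * s := mul_le_mul_of_nonneg_left hD2 hδ.le
    linarith
  -- the chemical potential
  have hrL : r ≤ L := by
    refine hasSum_le (fun z => ?_) hr hL'
    have h1 := hR z
    have h2 := hW z
    have h3 : (0 : ℝ) ≤ on z := by positivity
    have h4 : R z ≤ R z + W z / 2 := by linarith
    exact h4.trans (le_mul_of_one_le_right (by positivity) (by linarith))
  have hr0 : 0 ≤ r - per R J 0 := by
    have h1 := per_tot (J := J) hr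
    rw [← h1]
    refine Finset.sum_nonneg fun w _ => ?_
    split_ifs
    · exact le_rfl
    · exact per_nonneg hR J w
  have hpr := per_nonneg hR J (0 : Site d J)
  have hsr : 0 ≤ s * (r - per R J 0) := mul_nonneg hD.le hr0
  have hsr2 : s * (r - per R J 0) ≤ δ / 4 := by
    calc s * (r - per R J 0) ≤ 1 * (r - per R J 0) := mul_le_mul_of_nonneg_right hs1 hr0
      _ ≤ δ / 4 := by linarith
  have hμ1 : |μ - h| ≤ δ := by
    have h1 : |μ - h| ≤ |h| * k0 + tz d J q + s * (r - per R J 0) := by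
      have h2 : μ - h = - (h * k0) - tz d J q + s * (r - per R J 0) := by rw [hμ, hs]; ring
      have h3 : |h * k0| = |h| * k0 := by rw [abs_mul, abs_of_nonneg hk0n]
      rw [h2, abs_le]
      have h4 := abs_le.1 (le_of_eq h3)
      constructor <;> linarith [h4.1, h4.2]
    have h5 : (|h| + 1) * k0 ≤ δ / 4 := by
      have hh : 0 < |h₀| + 2 := by positivity
      calc (|h| + 1) * k0 ≤ (|h₀| + 2) * k0 :=
            mul_le_mul_of_nonneg_right (by linarith) hk0n
        _ ≤ (|h₀| + 2) * (2 * (δ / (8 * (|h₀| + 2)))) :=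
            mul_le_mul_of_nonneg_left (hk0l.trans (by linarith)) hh.le
        _ = δ / 4 := by field_simp; ring
    linarith
  have hτδ : τ ≤ δ := hτσ.trans (((min_le_left _ _).trans (min_le_left _ _)).trans (by linarith))
  have hβ1' : |β' - β₀| ≤ δ₁ := by
    have := abs_sub_le β' β β₀
    linarith
  have hμ1' : |μ - h₀| ≤ δ₁ := by
    have := abs_sub_le μ h h₀
    linarith
  have hfin := hmain P (hPL.trans (by linarith)) q (by linarith) hq1 β' μ hβ1' hμ1' J hJ1 ψ E _ hG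
  have e3 : ∀ F : (Site d J → Bool) → ℝ, ∑ m, Real.exp (-(β' * E m)) / Z * F m =
      (∑ m, Real.exp (-(β' * E m)) * F m) / Z := by
    intro F
    rw [Finset.sum_div]
    exact Finset.sum_congr rfl fun m _ => by ring
  rw [e3, e3, ← e1, ← e2] at hfin
  exact hfin

end Pool.Agent.N260.NMF
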