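import Pool.Agent.N260.NMF.Near
import Pool.Agent.N260.NMF.Mono

/-!
# Uniformity in the temperature and the chemical potential
-/

set_option autoImplicit false

open Finset BigOperators Filter Topology

namespace Pool.Agent.N260.NMF

open Pool.Agent.H11R2.BEC Pool.Agent.H11R2.BEC.Ker Pool.Agent.TH268.TB Pool.Agent.TH268.TC
open Pool.Agent.H11R2.LatticeBose
open Pool.Agent.TH268
open Pool.Agent.TH268.ThermalGas (hamiltonian condensate density)

/-- the property of a set of pairs (inverse temperature, chemical potential) -/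
def P (d : ℕ) (ε : ℝ) (K : Set (ℝ × ℝ)) : Prop :=
  ∃ δ : ℝ, 0 < δ ∧ ∃ J₀ : ℕ, ∀ p ∈ K,
      ∀ σ : ℝ, 0 < σ → σ ≤ δ → ∀ R W : (Fin d → ℤ) → ℝ,
      (∀ z, 0 ≤ R z) → (∀ z, 0 ≤ W z) → R 0 = 0 → W 0 = 0 → (∀ z, R (-z) = R z) →
      ∀ L : ℝ, L ≤ δ → HasSum (fun z => (R z + W z / 2) * (1 + oneNorm z)) L →
      ∀ J ≥ J₀,
        |condensate p.1 (hamiltonian (fun z => hopping d σ z + R z) W p.2 J) -
          max 0 ((M p.1 ^ 2 - p.2 ^ 2) / 4)| ≤ ε ∧
        |density p.1 (hamiltonian (fun z => hopping d σ z + R z) W p.2 J) -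
          mfRho p.1 p.2 (M p.1)| ≤ ε

lemma P_mono {d : ℕ} {ε : ℝ} {K K' : Set (ℝ × ℝ)} (h : K ⊆ K') (hP : P d ε K') : P d ε K := by
  obtain ⟨δ, hδ, J₀, H⟩ := hP
  exact ⟨δ, hδ, J₀, fun p hp => H p (h hp)⟩

lemma P_union {d : ℕ} {ε : ℝ} {K K' : Set (ℝ × ℝ)} (hK : P d ε K) (hK' : P d ε K') :
    P d ε (K ∪ K') := by
  obtain ⟨δ, hδ, J₀, H⟩ := hK
  obtain ⟨δ', hδ', J₀', H'⟩ := hK'
  refine ⟨min δ δ', lt_min hδ hδ', max J₀ J₀', ?_⟩
  rintro p (hp | hp) σ hσ hσ1 R W hR hW hR0 hW0 hRe L hL hs J hJ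
  · exact H p hp σ hσ (hσ1.trans (min_le_left _ _)) R W hR hW hR0 hW0 hRe L
      (hL.trans (min_le_left _ _)) hs J ((le_max_left _ _).trans hJ)
  · exact H' p hp σ hσ (hσ1.trans (min_le_right _ _)) R W hR hW hR0 hW0 hRe L
      (hL.trans (min_le_right _ _)) hs J ((le_max_right _ _).trans hJ)

lemma P_nhds (d : ℕ) (hd : 1 ≤ d) {ε : ℝ} (hε : 0 < ε) {p : ℝ × ℝ} (hp : 0 < p.1) :
    ∃ U ∈ 𝓝 p, P d ε U := by
  obtain ⟨β₀, h₀⟩ := p
  simp only at hp
  obtain ⟨δ, hδ, J₀, H⟩ := nearMF2 d hd β₀ h₀ (ε / 2) (M β₀) hp (by positivity) (M_nonneg β₀)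
    (M_eq β₀) M_pos_or
  have c1 := (cond_cont (h := h₀) hp).eventually
    (Metric.closedBall_mem_nhds (max 0 ((M β₀ ^ 2 - h₀ ^ 2) / 4)) (half_pos hε))
  have c2 := (rho_cont (h := h₀) hp).eventually
    (Metric.closedBall_mem_nhds (mfRho β₀ h₀ (M β₀)) (half_pos hε))
  have c3 : ∀ᶠ p : ℝ × ℝ in 𝓝 (β₀, h₀), |p.1 - β₀| ≤ δ := by
    have hc : ContinuousAt (fun p : ℝ × ℝ => |p.1 - β₀|) (β₀, h₀) := by fun_prop
    have h5 : ∀ᶠ p : ℝ × ℝ in 𝓝 (β₀, h₀), |p.1 - β₀| < δ :=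
      hc.eventually (gt_mem_nhds (by simpa using hδ))
    exact h5.mono fun p hp => hp.le
  have c4 : ∀ᶠ p : ℝ × ℝ in 𝓝 (β₀, h₀), |p.2 - h₀| ≤ δ := by
    have hc : ContinuousAt (fun p : ℝ × ℝ => |p.2 - h₀|) (β₀, h₀) := by fun_prop
    have h5 : ∀ᶠ p : ℝ × ℝ in 𝓝 (β₀, h₀), |p.2 - h₀| < δ :=
      hc.eventually (gt_mem_nhds (by simpa using hδ))
    exact h5.mono fun p hp => hp.le
  refine ⟨_, c1.and (c2.and (c3.and c4)), δ, hδ, J₀, ?_⟩
  rintro ⟨β, h⟩ ⟨h1, h2, h3, h4⟩ σ hσ hσ1 R W hR hW hR0 hW0 hRe L hL hs J hJ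
  simp only [Real.dist_eq] at h1 h2 h3 h4
  obtain ⟨g1, g2⟩ := H β h h3 h4 σ hσ hσ1 R W hR hW hR0 hW0 hRe L hL hs J hJ
  constructor
  · have t := abs_sub_le (condensate β (hamiltonian (fun z => hopping d σ z + R z) W h J))
      (max 0 ((M β₀ ^ 2 - h₀ ^ 2) / 4)) (max 0 ((M β ^ 2 - h ^ 2) / 4))
    rw [abs_sub_comm (max 0 ((M β₀ ^ 2 - h₀ ^ 2) / 4))] at t
    show |_| ≤ ε
    linarith
  · have t := abs_sub_le (density β (hamiltonian (fun z => hopping d σ z + R z) W h J))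
      (mfRho β₀ h₀ (M β₀)) (mfRho β h (M β))
    rw [abs_sub_comm (mfRho β₀ h₀ (M β₀))] at t
    show |_| ≤ ε
    linarith

theorem P_compact (d : ℕ) (hd : 1 ≤ d) {ε : ℝ} (hε : 0 < ε) {K : Set (ℝ × ℝ)} (hK : IsCompact K)
    (hpos : ∀ p ∈ K, 0 < p.1) : P d ε K := by
  refine hK.induction_on (p := P d ε) ⟨1, one_pos, 0, fun p hp => absurd hp (Set.notMem_empty p)⟩
    (fun s t hst ht => P_mono hst ht) (fun s t hs ht => P_union hs ht) ?_
  intro p hp
  obtain ⟨U, hU, hPU⟩ := P_nhds d hd hε (hpos p hp)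
  exact ⟨U, mem_nhdsWithin_of_mem_nhds hU, hPU⟩

/-- the difference of two values of the mean-field condensate as a function of the density -/
lemma cond_lip (m r ρ : ℝ) (hr0 : 0 ≤ r) (hr1 : r ≤ 1) (hρ0 : 0 ≤ ρ) (hρ1 : ρ ≤ 1) :
    |max 0 ((m ^ 2 - (1 - 2 * r) ^ 2) / 4) - max 0 ((m ^ 2 - (1 - 2 * ρ) ^ 2) / 4)| ≤ |r - ρ| := by
  have h1 := abs_max_sub_max_le_abs ((m ^ 2 - (1 - 2 * r) ^ 2) / 4) ((m ^ 2 - (1 - 2 * ρ) ^ 2) / 4) 0
  rw [max_comm, max_comm ((m ^ 2 - (1 - 2 * ρ) ^ 2) / 4)] at h1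
  refine h1.trans ?_
  have e : (m ^ 2 - (1 - 2 * r) ^ 2) / 4 - (m ^ 2 - (1 - 2 * ρ) ^ 2) / 4 = (r - ρ) * (1 - r - ρ) := by
    ring
  rw [e, abs_mul]
  have h2 : |1 - r - ρ| ≤ 1 := by rw [abs_le]; constructor <;> linarith
  calc |r - ρ| * |1 - r - ρ| ≤ |r - ρ| * 1 := mul_le_mul_of_nonneg_left h2 (abs_nonneg _)
    _ = |r - ρ| := mul_one _

lemma mfRho_mem (β h : ℝ) : 0 ≤ mfRho β h (M β) ∧ mfRho β h (M β) ≤ 1 := by
  unfold mfRho
  split_ifs with hlt
  · have h1 := M_lt_one β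
    have h2 := abs_lt.1 hlt
    constructor <;> linarith [h2.1, h2.2]
  · have h1 := tanh_lt_one' (β * h / 2)
    have h2 := tanh_lt_one' (-(β * h / 2))
    rw [Real.tanh_neg] at h2
    constructor <;> linarith

/-- **Uniform near-mean-field theorem.** -/
theorem unif (d : ℕ) (hd : 1 ≤ d) (ε b B : ℝ) (hε : 0 < ε) (hb : 0 < b) :
    ∃ δ : ℝ, 0 < δ ∧ ∃ J₀ : ℕ, ∀ σ : ℝ, 0 < σ → σ ≤ δ → ∀ R W : (Fin d → ℤ) → ℝ,
      (∀ z, 0 ≤ R z) → (∀ z, 0 ≤ W z) → R 0 = 0 → W 0 = 0 → (∀ z, R (-z) = R z) →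
      ∀ L : ℝ, L ≤ δ → HasSum (fun z => (R z + W z / 2) * (1 + oneNorm z)) L →
      ∀ J ≥ J₀, ∀ β h : ℝ, b ≤ β → β ≤ B →
        |condensate β (hamiltonian (fun z => hopping d σ z + R z) W h J) -
          max 0 ((M β ^ 2 - (1 - 2 * density β (hamiltonian (fun z => hopping d σ z + R z) W h J)) ^ 2)
            / 4)| ≤ ε ∧
        |density β (hamiltonian (fun z => hopping d σ z + R z) W h J) - mfRho β h (M β)| ≤ ε := by
  -- a large chemical potential
  set e : ℝ := min (ε / 4) (1 / 8) with he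
  have he0 : 0 < e := by rw [he]; positivity
  have he1 : e ≤ ε / 4 := min_le_left _ _
  have he2 : e ≤ 1 / 8 := min_le_right _ _
  obtain ⟨H, hH1, hHt⟩ : ∃ H : ℝ, 1 ≤ H ∧ 1 - e ≤ Real.tanh (b * H / 2) := by
    have h1 : Tendsto (fun H : ℝ => Real.tanh (b * H / 2)) atTop (𝓝 1) := by
      have h2 : Tendsto (fun H : ℝ => b * H / 2) atTop atTop :=
        (tendsto_id.const_mul_atTop hb).atTop_div_const (by norm_num)
      exact tanh_tendsto.comp h2
    have h2 := h1.eventually (lt_mem_nhds (show 1 - e < 1 by linarith))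
    obtain ⟨H, h3, h4⟩ := (h2.and (eventually_ge_atTop 1)).exists
    exact ⟨H, h4, h3.le⟩
  have hK : IsCompact (Set.Icc b B ×ˢ Set.Icc (-H) H) := isCompact_Icc.prod isCompact_Icc
  obtain ⟨δ, hδ, J₁, HP⟩ := P_compact d hd (ε := e) he0 hK (fun p hp => hb.trans_le hp.1.1)
  obtain ⟨J₂, hJ₂⟩ := exists_pow_lt_of_lt_one (show 0 < e by positivity)
    (show (1 / 2 : ℝ) < 1 by norm_num)
  refine ⟨δ, hδ, max J₁ J₂, ?_⟩
  intro σ hσ hσ1 R W hR hW hR0 hW0 hRe L hL hs J hJ β h hbβ hβB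
  have hJ1 : J₁ ≤ J := (le_max_left _ _).trans hJ
  have hJ2 : J₂ ≤ J := (le_max_right _ _).trans hJ
  have hβ : 0 < β := hb.trans_le hbβ
  have hKe : ∀ z, (fun z => hopping d σ z + R z) (-z) = (fun z => hopping d σ z + R z) z := by
    intro z
    simp only [hopping_neg σ z, hRe z]
  have HP' : ∀ h : ℝ, -H ≤ h → h ≤ H →
        |condensate β (hamiltonian (fun z => hopping d σ z + R z) W h J) -
          max 0 ((M β ^ 2 - h ^ 2) / 4)| ≤ e ∧
        |density β (hamiltonian (fun z => hopping d σ z + R z) W h J) - mfRho β h (M β)| ≤ e :=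
    fun h h1 h2 => HP (β, h) ⟨⟨hbβ, hβB⟩, ⟨h1, h2⟩⟩ σ hσ hσ1 R W hR hW hR0 hW0 hRe L hL hs J hJ1
  obtain ⟨q0, q1⟩ := density_mem (J := J) (K := fun z => hopping d σ z + R z) (W := W) hKe β h
  obtain ⟨m0, m1⟩ := mfRho_mem β h
  -- summability of `R`
  have hRs : Summable R := by
    refine Summable.of_nonneg_of_le hR (fun z => ?_) hs.summable
    have h1 := hR z
    have h2 := hW z
    have h3 : (0 : ℝ) ≤ oneNorm z := by positivity
    have h4 : R z ≤ R z + W z / 2 := by linarith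
    exact h4.trans (le_mul_of_one_le_right (by positivity) (by linarith))
  obtain ⟨r, hr⟩ := hRs
  obtain ⟨c0, c1, c2⟩ := cond_le (J := J) hd hσ hR hW hRe hr β h
  have hpow : 1 / (2 : ℝ) ^ (d * J) ≤ e := by
    have h1 : 1 / (2 : ℝ) ^ (d * J) ≤ (1 / 2 : ℝ) ^ J₂ := by
      rw [one_div, ← inv_pow, ← one_div]
      apply pow_le_pow_of_le_one (by norm_num) (by norm_num)
      have : J ≤ d * J := Nat.le_mul_of_pos_left _ (by omega)
      omega
    exact h1.trans hJ₂.le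
  have hMlt := M_lt_one β
  have hM0 := M_nonneg β
  have hMsq : M β ^ 2 ≤ 1 := by nlinarith
  have htH : 1 - e ≤ Real.tanh (β * H / 2) := by
    refine hHt.trans (tanh_mono.monotone ?_)
    have := mul_le_mul_of_nonneg_right hbβ (by linarith : 0 ≤ H)
    linarith
  set C := condensate β (hamiltonian (fun z => hopping d σ z + R z) W h J) with hC
  set ρ := density β (hamiltonian (fun z => hopping d σ z + R z) W h J) with hρ
  have htarget : max 0 ((M β ^ 2 - (1 - 2 * ρ) ^ 2) / 4) ≤ ρ * (1 - ρ) := by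
    refine max_le (mul_nonneg q0 (by linarith)) ?_
    nlinarith
  have htarget0 : 0 ≤ max 0 ((M β ^ 2 - (1 - 2 * ρ) ^ 2) / 4) := le_max_left _ _
  rcases le_or_gt h H with h1 | h1
  · rcases le_or_gt (-H) h with h2 | h2
    · obtain ⟨a1, a2⟩ := HP' h h2 h1
      refine ⟨?_, a2.trans (by linarith)⟩
      have a3 := cond_lip (M β) (mfRho β h (M β)) ρ m0 m1 q0 q1
      rw [cond_rho β h hβ, abs_sub_comm (mfRho β h (M β))] at a3
      have a4 := abs_sub_le C (max 0 ((M β ^ 2 - h ^ 2) / 4))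
        (max 0 ((M β ^ 2 - (1 - 2 * ρ) ^ 2) / 4))
      linarith
    · -- very negative chemical potential
      obtain ⟨-, a2⟩ := HP' (-H) le_rfl (by linarith)
      have a3 : mfRho β (-H) (M β) ≤ e / 2 := by
        unfold mfRho
        rw [if_neg (by rw [abs_neg, abs_of_nonneg (by linarith)]; linarith)]
        have : β * -H / 2 = -(β * H / 2) := by ring
        rw [this, Real.tanh_neg]
        linarith
      have a4 := density_mono (J := J) (K := fun z => hopping d σ z + R z) (W := W) hKe hβ h2.le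
      have a5 : ρ ≤ 2 * e := by
        have := (abs_le.1 a2).2
        linarith
      have a6 : mfRho β h (M β) ≤ e / 2 := by
        unfold mfRho
        rw [if_neg (by rw [abs_of_nonpos (by linarith)]; linarith)]
        have h5 : β * h / 2 ≤ -(β * H / 2) := by
          have := mul_le_mul_of_nonneg_left h2.le hβ.le
          linarith
        have h6 := tanh_mono.monotone h5
        rw [Real.tanh_neg] at h6
        linarith
      constructor
      · rw [abs_le]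
        have : ρ * (1 - ρ) ≤ ρ * 1 := mul_le_mul_of_nonneg_left (by linarith) q0
        constructor <;> linarith
      · rw [abs_le]
        constructor <;> linarith
  · -- very large chemical potential
    obtain ⟨-, a2⟩ := HP' H (by linarith) le_rfl
    have a3 : 1 - e / 2 ≤ mfRho β H (M β) := by
      unfold mfRho
      rw [if_neg (by rw [abs_of_nonneg (by linarith)]; linarith)]
      linarith
    have a4 := density_mono (J := J) (K := fun z => hopping d σ z + R z) (W := W) hKe hβ h1.le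
    have a5 : 1 - 2 * e ≤ ρ := by
      have := (abs_le.1 a2).1
      linarith
    have a6 : 1 - e / 2 ≤ mfRho β h (M β) := by
      unfold mfRho
      rw [if_neg (by rw [abs_of_nonneg (by linarith)]; linarith)]
      have h5 : β * H / 2 ≤ β * h / 2 := by
        have := mul_le_mul_of_nonneg_left h1.le hβ.le
        linarith
      have h6 := tanh_mono.monotone h5
      linarith
    constructor
    · rw [abs_le]
      have : ρ * (1 - ρ) ≤ 1 * (1 - ρ) := mul_le_mul_of_nonneg_right q1 (by linarith)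
      constructor <;> linarith
    · rw [abs_le]
      constructor <;> linarith

end Pool.Agent.N260.NMF
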